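import Pool.Agent.Helper3.FewP.Goals

/-!
# Packet STRIP-CTB
-/

set_option autoImplicit false

namespace Pool.Agent.Helper73.FewP

open Pool.Agent.Helper3.FewP

theorem bounds {k P N' : ℕ} (hP : 1 ≤ P) {x : ℤ × ℤ} (h : Strip k P (P * N') 0 x) :
    2 * (x.1 - P * x.2) < N' ∧ -((k * P : ℕ) : ℤ) < x.1 - P * x.2 := by
  obtain ⟨h1, h2, h3, h4⟩ := h
  unfold DD at h3 h4
  set c : ℤ := x.1 - P * x.2 with hc
  have hP' : (0 : ℤ) < P := by exact_mod_cast hP
  have e1 : 2 * (P : ℤ) ^ 2 * x.2 - (2 * P - 1) * x.1 = x.1 - P * (2 * c) := by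
    rw [hc]; ring
  rw [e1] at h3 h4
  push_cast at h2
  constructor
  · have : (P : ℤ) * (2 * c) < P * N' := by
      have : (2 : ℤ) * P ^ 2 * 0 = 0 := by ring
      linarith
    exact lt_of_mul_lt_mul_left this hP'.le
  · have : (P : ℤ) * (-(k * P)) < P * c := by
      have e2 : (2 : ℤ) * P ^ 2 * (0 + k) = 2 * (P * (k * P)) := by ring
      rw [e2] at h4
      have e3 : (P : ℤ) * (2 * c) = 2 * (P * c) := by ring
      rw [e3] at h4
      have e4 : (P : ℤ) * (-(k * P)) = -(P * (k * P)) := by ring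
      rw [e4]
      linarith
    push_cast
    exact lt_of_mul_lt_mul_left this hP'.le

theorem t : G_LIN → G_CTB := by
  intro hLIN k P m s N' S hk hP hm hN hS
  have hK : 2 * k * P = 2 * (k * P) := by ring
  rw [hK] at hm hN
  have hb := fun x hx => bounds hP (hS x hx)
  have hN1 : ∀ x ∈ S, 1 ≤ N' := by
    intro x hx
    by_contra h
    have h0 : N' = 0 := by omega
    have h1 := (hS x hx).1
    have h2 := (hS x hx).2.1
    rw [h0] at h2
    simp at h2
    omega
  have hlt : ∀ x ∈ S, idxB s (x.1 - P * x.2) < m := by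
    intro x hx
    obtain ⟨h1, h2⟩ := hb x hx
    have h3 := hN1 x hx
    generalize k * P = K at *
    generalize x.1 - (P : ℤ) * x.2 = c at *
    unfold idxB
    split_ifs <;> omega
  refine ⟨hlt, ?_, ?_⟩
  · intro x hx y hy hxy
    obtain ⟨h1, h2⟩ := hb x hx
    obtain ⟨h3, h4⟩ := hb y hy
    generalize k * P = K at *
    generalize x.1 - (P : ℤ) * x.2 = c at *
    generalize y.1 - (P : ℤ) * y.2 = d at *
    unfold idxB at hxy
    split_ifs at hxy <;> omega
  · intro x hx
    have h5 := hlt x hx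
    obtain ⟨h1, h2⟩ := hb x hx
    have h3 := hN1 x hx
    have h6 := hLIN k P N' (m - idxB s (x.1 - P * x.2)) (x.1 - P * x.2)
      (S.filter fun y => y.1 - P * y.2 = x.1 - P * x.2) hP
      (fun y hy => ⟨hS y (Finset.mem_filter.1 hy).1, (Finset.mem_filter.1 hy).2⟩) (by
        have hK2 : 2 * (P : ℤ) * k = 2 * ((k * P : ℕ) : ℤ) := by push_cast; ring
        rw [hK2]
        generalize k * P = K at *
        generalize x.1 - (P : ℤ) * x.2 = c at *
        unfold idxB at h5 ⊢
        split_ifs at h5 ⊢ <;> omega)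
    omega

end Pool.Agent.Helper73.FewP
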